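import Pool.Agent.Helper65.JL.Stmts

/-!
# Row SL of JL: slices of a compact set of null functions
-/

open Set Filter Topology Pool.Agent.Helper86.TK

namespace Pool.Agent.Helper65.JL

theorem sl2_pos {A : Set T} {t : T} (h : t ∈ A) : chi A t = 1 := by
  unfold chi
  rw [Set.indicator_of_mem h]
  rfl

theorem sl2_neg {A : Set T} {t : T} (h : t ∉ A) : chi A t = 0 := by
  unfold chi
  rw [Set.indicator_of_notMem h]

theorem st_SL : ST_SL := by
  intro C hC hN h hh
  have hB : IsCompact (Set.pi Set.univ (fun _ : T => ({0, 1} : Set ℝ))) :=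
    isCompact_univ_pi (fun _ => (Set.toFinite _).isCompact)
  have hR : IsClosed {p : (T → ℝ) × (T → ℝ) | ∀ t, p.1 t * h ≤ |p.2 t|} := by
    rw [Set.ofPred_forall]
    exact isClosed_iInter fun t => isClosed_le (by fun_prop) (by fun_prop)
  have hRc := (hB.prod hC).inter_right hR
  have hImg := hRc.image continuous_fst
  have key : ∀ (c : T → ℝ) (_ : c ∈ C) (A : Set T) (_ : ∀ t ∈ A, h ≤ |c t|),
      chi A ∈ Prod.fst '' ((Set.pi Set.univ (fun _ : T => ({0, 1} : Set ℝ)) ×ˢ C) ∩
        {p : (T → ℝ) × (T → ℝ) | ∀ t, p.1 t * h ≤ |p.2 t|}) := by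
    intro c hc A hA
    refine ⟨(chi A, c), ⟨⟨?_, hc⟩, ?_⟩, rfl⟩
    · intro t _
      by_cases ht : t ∈ A
      · exact Or.inr (sl2_pos ht)
      · exact Or.inl (sl2_neg ht)
    · intro t
      change chi A t * h ≤ |c t|
      by_cases ht : t ∈ A
      · rw [sl2_pos ht, one_mul]
        exact hA t ht
      · rw [sl2_neg ht, zero_mul]
        exact abs_nonneg _
  have hsub : {u | ∃ c ∈ C, ∃ i : ℕ, 1 ≤ i ∧
      (u = chi {t | i * h ≤ c t} ∨ u = chi {t | i * h ≤ -c t})} ⊆
      Prod.fst '' ((Set.pi Set.univ (fun _ : T => ({0, 1} : Set ℝ)) ×ˢ C) ∩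
        {p : (T → ℝ) × (T → ℝ) | ∀ t, p.1 t * h ≤ |p.2 t|}) := by
    rintro u ⟨c, hc, i, hi, rfl | rfl⟩
    · apply key c hc
      intro t ht
      change (i : ℝ) * h ≤ c t at ht
      have h1 : (1 : ℝ) ≤ i := by exact_mod_cast hi
      have h2 : h ≤ i * h := by nlinarith
      exact (h2.trans ht).trans (le_abs_self _)
    · apply key c hc
      intro t ht
      change (i : ℝ) * h ≤ -c t at ht
      have h1 : (1 : ℝ) ≤ i := by exact_mod_cast hi
      have h2 : h ≤ i * h := by nlinarith
      exact (h2.trans ht).trans (neg_le_abs _)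
  have hcl := closure_minimal hsub hImg.isClosed
  refine ⟨hImg.of_isClosed_subset isClosed_closure hcl, ?_, ?_⟩
  · intro u hu
    obtain ⟨⟨u', c⟩, ⟨⟨h01, hc⟩, hle⟩, rfl⟩ := hcl hu
    have hnull := hN c hc
    have hev : ∀ᶠ t in cofinite, u' t = 0 := by
      have h3 : ∀ᶠ t in cofinite, |c t| < h := by
        have h4 : Tendsto (fun t => |c t|) cofinite (𝓝 0) := by
          have := hnull.abs
          rw [abs_zero] at this
          exact this
        exact h4.eventually_lt_const hh
      filter_upwards [h3] with t ht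
      rcases h01 t (Set.mem_univ t) with h0 | h1
      · exact h0
      · exfalso
        have h5 := hle t
        change u' t * h ≤ |c t| at h5
        have h6 : u' t = 1 := h1
        rw [h6, one_mul] at h5
        linarith
    exact tendsto_const_nhds.congr' (hev.mono fun t ht => ht.symm)
  · intro u hu t
    obtain ⟨⟨u', c⟩, ⟨⟨h01, hc⟩, hle⟩, rfl⟩ := hcl hu
    exact h01 t (Set.mem_univ t)

end Pool.Agent.Helper65.JL
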